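import Mathlib
import Pool.Agent.MP_d19b84_nt.h13.MainG

set_option autoImplicit false

namespace Pool.Agent.Results.MP_d19b84_nt.BoundedModel

/-- A sequence whose running sums stay within a bounded distance of those of `α` times a piecewise
arithmetic progression (bounded integer differences, long pieces), on the blocks
`[c 2 ^ k, (1 + 1 / s) c 2 ^ k)` for a set of exponents `k` of positive upper Banach density,
has a term that is a sum of at least two consecutive earlier terms. -/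
theorem result (a b : ℕ → ℕ) (w : ℕ → ℝ) (α C : ℝ) (P c s : ℕ) (hc : 1 ≤ c) (hs : 1 ≤ s)
    (G : Set ℕ)
    (hG : ∃ r : ℕ, ∀ M : ℕ, ∃ u n : ℕ, M ≤ n ∧ n ≤ r * (G ∩ Set.Ico u (u + n)).ncard)
    (hb : StrictMono b) (hw : ∀ n, |w n| ≤ C)
    (hrun : ∀ g : ℕ, ∃ L : ℕ, ∀ k ∈ G, L ≤ k → ∀ t : ℕ, c * 2 ^ k ≤ t →
      s * t < (s + 1) * (c * 2 ^ k) →
      ∃ n : ℕ, t ≤ b n ∧ b n ≤ t + L ∧ ∀ m : ℕ, n ≤ m → m ≤ n + g →
        b (m + 1) ≤ b m + P ∧ b (m + 2) + b m = 2 * b (m + 1) ∧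
          (a m : ℝ) = α * b m + w (m + 1) - w m) :
    ∃ i j k : ℕ, j < k ∧ k < i ∧ a i = ∑ m ∈ Finset.Icc j k, a m :=
  Pool.Agent.MP_d19b84_nt.H13.mainG a b w α C P c s hc hs G hG hb hw hrun

end Pool.Agent.Results.MP_d19b84_nt.BoundedModel
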