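import Mathlib
import Pool.Agent.MP_d19b84_nt.LR.Glue

set_option autoImplicit false

namespace Pool.Agent.Results.MP_d19b84_nt.LongRanges

theorem result :
    ∃ a : ℕ → ℕ, StrictMono a ∧ 1 ≤ a 0 ∧
      (∀ i j k : ℕ, j ≤ k → k < i → a i ≠ ∑ m ∈ Finset.Icc j k, a m) ∧
      ∀ N₀ : ℕ, ∃ N : ℕ, N₀ ≤ N ∧ ∀ n : ℕ, N ≤ n → (n : ℝ) ≤ 1 / 38 * N * Real.log N →
        a n < 256 * n :=
  Pool.Agent.MP_d19b84_nt.LR.main

end Pool.Agent.Results.MP_d19b84_nt.LongRanges
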