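import Mathlib
import Pool.Agent.MP_d19b84_nt.LogFinal
import Pool.Agent.MP_d19b84_nt.LogGlobal

set_option autoImplicit false

namespace Pool.Agent.Results.MP_d19b84_nt.NearLog

open Pool.Agent.MP_d19b84_nt.Logd

theorem result :
    ∃ a : ℕ → ℕ, StrictMono a ∧ 1 ≤ a 0 ∧
      (∀ i j k : ℕ, j ≤ k → k < i → a i ≠ ∑ m ∈ Finset.Icc j k, a m) ∧
      ∀ ε : ℝ, 0 < ε → ∀ᶠ x : ℝ in Filter.atTop,
        (Real.log x) ^ (1 - ε) ≤
          ∑ n ∈ (Finset.range ⌈x⌉₊).filter (fun n => (a n : ℝ) < x), (1 : ℝ) / (a n : ℝ) :=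
  final core (globalS localS)

end Pool.Agent.Results.MP_d19b84_nt.NearLog
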